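import Pool.Agent.H98.ABCR.Stmts

/-!
# ABCR, module TSI: the Thue-Siegel inequality
-/

set_option autoImplicit false

namespace Pool.Agent.H98.ABCR
open Finset Polynomial

lemma tsi_ht2 {x y : ℤ} (h : IsSol x y) : 2 ≤ ht x y := by
  obtain ⟨x0, y0, z0, -⟩ := h
  unfold ht
  by_contra hlt
  push Not at hlt
  have h1 : x.natAbs < 2 := lt_of_le_of_lt (le_trans (le_max_left _ _) (le_max_left _ _)) hlt
  have h2 : y.natAbs < 2 := lt_of_le_of_lt (le_trans (le_max_right _ _) (le_max_left _ _)) hlt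
  have h3 : (x + y).natAbs < 2 := lt_of_le_of_lt (le_max_right _ _) hlt
  omega

lemma tsi_lh {x y : ℤ} (h : IsSol x y) : 0 < lh x y := by
  unfold lh
  apply Real.log_pos
  have := tsi_ht2 h
  exact_mod_cast (by omega : 1 < ht x y)

lemma tsi_vv (q : ℕ) (z : ℤ) : (q : ℤ) ^ (vv q z) ∣ z := by
  unfold vv
  have h := Nat.ordProj_dvd z.natAbs q
  rw [← Int.natCast_dvd] at h
  simpa using h

lemma tsi_ndvd {q : ℕ} {x y : ℤ} (hq : q.Prime) (h : IsSol x y) (hd : (q : ℤ) ∣ x + y) :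
    ¬ (q : ℤ) ∣ x ∧ ¬ (q : ℤ) ∣ y := by
  have key : ∀ a b : ℤ, IsCoprime a b → (q : ℤ) ∣ a + b → ¬ (q : ℤ) ∣ a := by
    intro a b hab hs ha
    have hb : (q : ℤ) ∣ b := (dvd_add_right ha).1 hs
    have := hab.isUnit_of_dvd' ha hb
    rw [Int.isUnit_iff] at this
    have := hq.two_le
    omega
  exact ⟨key x y h.cop hd, key y x h.cop.symm (by rwa [add_comm])⟩

lemma tsi_prod {S : Finset ℕ} (hS : ∀ q ∈ S, q.Prime) (m : ℕ → ℕ) {F : ℤ}
    (hF : ∀ q ∈ S, (q : ℤ) ^ m q ∣ F) (h0 : F ≠ 0) :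
    ∑ q ∈ S, (m q : ℝ) * Real.log q ≤ Real.log |(F : ℝ)| := by
  have hd : (∏ q ∈ S, q ^ m q) ∣ F.natAbs := by
    apply Finset.prod_dvd_of_isRelPrime
    · intro a ha b hb hab
      exact Nat.coprime_iff_isRelPrime.1
        (Nat.Coprime.pow _ _ ((Nat.coprime_primes (hS a ha) (hS b hb)).2 hab))
    · intro q hq
      have := hF q hq
      rw [← Int.natCast_dvd]
      simpa using this
  have hle : (∏ q ∈ S, q ^ m q) ≤ F.natAbs := Nat.le_of_dvd (Int.natAbs_pos.2 h0) hd
  have hpos : ∀ q ∈ S, (0 : ℝ) < q := fun q hq => by exact_mod_cast (hS q hq).pos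
  have h1 : Real.log (∏ q ∈ S, (q : ℝ) ^ m q) = ∑ q ∈ S, (m q : ℝ) * Real.log q := by
    rw [Real.log_prod]
    · exact Finset.sum_congr rfl fun q _ => Real.log_pow _ _
    · intro q hq
      exact (pow_pos (hpos q hq) _).ne'
  rw [← h1]
  apply Real.log_le_log (Finset.prod_pos fun q hq => pow_pos (hpos q hq) _)
  have h2 : |(F : ℝ)| = ((F.natAbs : ℕ) : ℝ) := by
    rw [Nat.cast_natAbs, Int.cast_abs]
  rw [h2]
  exact_mod_cast hle

lemma tsi_root {k : ℕ} (hk : 0 < k) {a h1 h2 : ℝ}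
    (h : a ^ k ≤ Real.exp (h1 + h2)) : a ≤ Real.exp ((h1 + h2) / k) := by
  have hk' : (k : ℝ) ≠ 0 := by exact_mod_cast hk.ne'
  have h3 : Real.exp (h1 + h2) = (Real.exp ((h1 + h2) / k)) ^ k := by
    rw [← Real.exp_nat_mul]
    congr 1
    field_simp
  rw [h3] at h
  exact le_of_pow_le_pow_left₀ hk.ne' (Real.exp_pos _).le h

theorem tsi_thm (hPAD : S_PAD) (hARC : S_ARC) : S_TSI := by
  intro k r n M i p S θ θi A x1 y1 x2 y2 N D hk hko hL hiM hA hdiv hF
  have hl1 := tsi_lh hL.s1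
  have hl2 := tsi_lh hL.s2
  have hk0 : 0 < k := hk.pos
  have hlogk : 0 ≤ Real.log k := Real.log_natCast_nonneg k
  set S' := S.filter (fun q => 0 < θ q) with hS'
  have hP' : ∀ q ∈ S', q.Prime := fun q hq => hL.Sp q (Finset.mem_filter.1 hq).1
  set e1 : ℕ → ℕ := fun q => vv q (x1 + y1) with he1
  set e2 : ℕ → ℕ := fun q => vv q (x2 + y2) with he2
  set m : ℕ → ℕ := fun q => min ((M - i) * e1 q) (e2 q) - (if q = k then M - i else 0) with hm
  have hdvd : ∀ q ∈ S', (q : ℤ) ^ m q ∣ Fval k r n i p x1 y1 N D := by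
    intro q hq
    obtain ⟨hqS, hθ⟩ := Finset.mem_filter.1 hq
    have hqp := hL.Sp q hqS
    have hlq : 0 < Real.log q := Real.log_pos (by exact_mod_cast hqp.one_lt)
    have h11 : 1 ≤ e1 q := by
      have := hL.w1 q hqS
      have h0 : 0 < (vv q (x1 + y1) : ℝ) * Real.log q := lt_of_lt_of_le (mul_pos hθ hl1) this
      have : (0 : ℝ) < (vv q (x1 + y1) : ℝ) := by
        by_contra hc
        push Not at hc
        have := mul_nonpos_of_nonpos_of_nonneg hc hlq.le
        linarith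
      exact_mod_cast this
    have h12 : 1 ≤ e2 q := by
      have := hL.w2 q hqS
      have h0 : 0 < (vv q (x2 + y2) : ℝ) * Real.log q := lt_of_lt_of_le (mul_pos hθ hl2) this
      have : (0 : ℝ) < (vv q (x2 + y2) : ℝ) := by
        by_contra hc
        push Not at hc
        have := mul_nonpos_of_nonpos_of_nonneg hc hlq.le
        linarith
      exact_mod_cast this
    have hd1 : (q : ℤ) ^ e1 q ∣ x1 + y1 := tsi_vv q _
    have hd2 : (q : ℤ) ^ e2 q ∣ x2 + y2 := tsi_vv q _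
    have hq1 := tsi_ndvd hqp hL.s1 ((dvd_pow_self _ (by omega)).trans hd1)
    have hq2 := tsi_ndvd hqp hL.s2 ((dvd_pow_self _ (by omega)).trans hd2)
    obtain ⟨hN, hD, hND⟩ := hL.loc q hqS hθ
    exact hPAD k r n M i q (e1 q) (e2 q) p x1 y1 x2 y2 N D hqp hk hko hq1.1 hq1.2 hq2.1 hq2.2
      hN hD hd1 hd2 h11 h12 hL.rel hND hdiv hiM
  have hlow := tsi_prod hP' m hdvd hF
  set B : ℝ := min (((M - i : ℕ) : ℝ) * lh x1 y1) (lh x2 y2) with hB
  have hB0 : 0 ≤ B := le_min (by positivity) hl2.le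
  have hterm : ∀ q ∈ S', θ q * B - (if q = k then (M : ℝ) * Real.log k else 0) ≤
      (m q : ℝ) * Real.log q := by
    intro q hq
    obtain ⟨hqS, hθ⟩ := Finset.mem_filter.1 hq
    have hqp := hL.Sp q hqS
    have hlq : 0 ≤ Real.log q := Real.log_natCast_nonneg q
    have hmm : ((min ((M - i) * e1 q) (e2 q) : ℕ) : ℝ) - (if q = k then ((M - i : ℕ) : ℝ) else 0) ≤
        (m q : ℝ) := by
      have : min ((M - i) * e1 q) (e2 q) ≤ m q + (if q = k then M - i else 0) := by
        simp only [hm]; omega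
      have h' : ((min ((M - i) * e1 q) (e2 q) : ℕ) : ℝ) ≤
          (m q : ℝ) + (if q = k then ((M - i : ℕ) : ℝ) else 0) := by
        split_ifs with hqk
        · rw [if_pos hqk] at this
          exact_mod_cast this
        · rw [if_neg hqk] at this
          simpa using (by exact_mod_cast this : ((min ((M - i) * e1 q) (e2 q) : ℕ) : ℝ) ≤ ((m q + 0 : ℕ) : ℝ))
      linarith
    have h1 : θ q * B ≤ ((min ((M - i) * e1 q) (e2 q) : ℕ) : ℝ) * Real.log q := by
      rw [Nat.cast_min, min_mul_of_nonneg _ _ hlq, le_min_iff]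
      constructor
      · calc θ q * B ≤ θ q * (((M - i : ℕ) : ℝ) * lh x1 y1) :=
              mul_le_mul_of_nonneg_left (min_le_left _ _) hθ.le
          _ = ((M - i : ℕ) : ℝ) * (θ q * lh x1 y1) := by ring
          _ ≤ ((M - i : ℕ) : ℝ) * ((vv q (x1 + y1) : ℝ) * Real.log q) :=
              mul_le_mul_of_nonneg_left (hL.w1 q hqS) (Nat.cast_nonneg _)
          _ = (((M - i) * e1 q : ℕ) : ℝ) * Real.log q := by
              rw [Nat.cast_mul]; ring
      · exact le_trans (mul_le_mul_of_nonneg_left (min_le_right _ _) hθ.le) (hL.w2 q hqS)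
    have h2 : (if q = k then ((M - i : ℕ) : ℝ) else 0) * Real.log q ≤
        (if q = k then (M : ℝ) * Real.log k else 0) := by
      split_ifs with hqk
      · rw [hqk]
        apply mul_le_mul_of_nonneg_right _ hlogk
        exact_mod_cast Nat.sub_le M i
      · simp
    have h3 := mul_le_mul_of_nonneg_right hmm hlq
    rw [sub_mul] at h3
    linarith
  have hsum1 := Finset.sum_le_sum hterm
  rw [Finset.sum_sub_distrib, ← Finset.sum_mul] at hsum1
  have hsum2 : ∑ q ∈ S', (if q = k then (M : ℝ) * Real.log k else 0) ≤ M * Real.log k := by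
    rw [Finset.sum_ite_eq']
    split_ifs
    · exact le_rfl
    · positivity
  have hsum3 : ∑ q ∈ S, θ q = ∑ q ∈ S', θ q := by
    rw [hS', Finset.sum_filter]
    apply Finset.sum_congr rfl
    intro q hq
    split_ifs with h
    · rfl
    · exact le_antisymm (not_lt.1 h) (hL.th0 q hq)
  -- upper bound
  have hht1 : (0 : ℝ) < ht x1 y1 := by
    have := tsi_ht2 hL.s1
    exact_mod_cast (by omega : 0 < ht x1 y1)
  have hht2 : (0 : ℝ) < ht x2 y2 := by
    have := tsi_ht2 hL.s2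
    exact_mod_cast (by omega : 0 < ht x2 y2)
  have hexp : (ht x1 y1 : ℝ) * ht x2 y2 = Real.exp (lh x1 y1 + lh x2 y2) := by
    rw [Real.exp_add, lh, lh, Real.exp_log hht1, Real.exp_log hht2]
  have hNQ : |(N : ℝ)| ≤ Real.exp ((lh x1 y1 + lh x2 y2) / k) :=
    tsi_root hk0 (hexp ▸ hL.Nle)
  have hDQ : |(D : ℝ)| ≤ Real.exp ((lh x1 y1 + lh x2 y2) / k) :=
    tsi_root hk0 (hexp ▸ hL.Dle)
  have hup := hARC k r n M i p x1 y1 x2 y2 N D (Real.exp A) (Real.exp ((lh x1 y1 + lh x2 y2) / k)) θi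
    hko hiM hA hL.s1 hL.s2 hL.N0 hL.D0 hL.rel hNQ hDQ hdiv hL.thi0 hL.wi1 hL.wi2
  have hFpos : 0 < |(Fval k r n i p x1 y1 N D : ℝ)| := by
    rw [abs_pos]
    exact_mod_cast hF
  have hlog := Real.log_le_log hFpos hup
  have hrhs : Real.log (Real.exp A * 256 ^ (k * n + r + M + 1) * (ht x1 y1 : ℝ) ^ n *
      Real.exp ((lh x1 y1 + lh x2 y2) / k) ^ r *
      Real.exp (-(θi * min (((M - i : ℕ) : ℝ) * lh x1 y1) (lh x2 y2)))) =
      A + (k * n + r + M + 1) * Real.log 256 + n * lh x1 y1 + r * ((lh x1 y1 + lh x2 y2) / k)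
        - θi * B := by
    rw [Real.log_mul (by positivity) (Real.exp_pos _).ne',
      Real.log_mul (by positivity) (by positivity),
      Real.log_mul (by positivity) (by positivity),
      Real.log_mul (by positivity) (by positivity),
      Real.log_exp, Real.log_pow, Real.log_pow, Real.log_pow, Real.log_exp, Real.log_exp,
      show Real.log (ht x1 y1 : ℝ) = lh x1 y1 from rfl, ← hB]
    push_cast
    ring
  rw [hrhs] at hlog
  rw [hsum3, add_mul]
  have := hsum1.trans hlow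
  linarith

end Pool.Agent.H98.ABCR
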